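import Pool.Agent.H7.TF.Targets

/-! Module D1 of MP_7a929c_al: the group `ℤ[√2] ⋊ ℤ`. -/

set_option autoImplicit false

namespace Pool.Agent.H87.TF

open Pool.Agent.H7.TF

/-- the unit `1 + √2` -/
def eps : (ℤ√2)ˣ where
  val := ⟨1, 1⟩
  inv := ⟨-1, 1⟩
  val_inv := by decide
  inv_val := by decide

/-- the group `ℤ[√2] ⋊ ℤ` -/
@[ext]
structure PG where
  v : ℤ√2
  n : ℤ

namespace PG

instance : Mul PG := ⟨fun a b => ⟨a.v + ((eps ^ a.n : (ℤ√2)ˣ) : ℤ√2) * b.v, a.n + b.n⟩⟩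
instance : One PG := ⟨⟨0, 0⟩⟩
instance : Inv PG := ⟨fun a => ⟨-(((eps ^ (-a.n) : (ℤ√2)ˣ) : ℤ√2) * a.v), -a.n⟩⟩

theorem mul_def (a b : PG) :
    a * b = ⟨a.v + ((eps ^ a.n : (ℤ√2)ˣ) : ℤ√2) * b.v, a.n + b.n⟩ := rfl
theorem one_def : (1 : PG) = ⟨0, 0⟩ := rfl
theorem inv_def (a : PG) : a⁻¹ = ⟨-(((eps ^ (-a.n) : (ℤ√2)ˣ) : ℤ√2) * a.v), -a.n⟩ := rfl

@[simp] theorem mul_v (a b : PG) :
    (a * b).v = a.v + ((eps ^ a.n : (ℤ√2)ˣ) : ℤ√2) * b.v := rfl
@[simp] theorem mul_n (a b : PG) : (a * b).n = a.n + b.n := rfl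
@[simp] theorem one_v : (1 : PG).v = 0 := rfl
@[simp] theorem one_n : (1 : PG).n = 0 := rfl
@[simp] theorem inv_v (a : PG) : (a⁻¹).v = -(((eps ^ (-a.n) : (ℤ√2)ˣ) : ℤ√2) * a.v) := rfl
@[simp] theorem inv_n (a : PG) : (a⁻¹).n = -a.n := rfl

instance : Group PG where
  mul_assoc a b c := by
    ext1
    · simp only [mul_v, mul_n, zpow_add, Units.val_mul]; ring
    · simp only [mul_n]; ring
  one_mul a := by
    ext1
    · simp
    · simp
  mul_one a := by
    ext1
    · simp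
    · simp
  inv_mul_cancel a := by
    ext1
    · simp
    · simp

/-- the degree -/
def tau : PG →* Multiplicative ℤ where
  toFun a := Multiplicative.ofAdd a.n
  map_one' := rfl
  map_mul' _ _ := rfl

@[simp] theorem tau_apply (a : PG) : tau a = Multiplicative.ofAdd a.n := rfl

theorem deg_eq (a : PG) : deg tau a = a.n.natAbs := rfl

/-- the stable letter -/
def t : PG := ⟨0, 1⟩

instance : Countable PG := by
  have : Function.Injective (fun a : PG => (a.v.re, a.v.im, a.n)) := by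
    rintro ⟨⟨a, b⟩, c⟩ ⟨⟨a', b'⟩, c'⟩ h
    simp only [Prod.mk.injEq] at h
    obtain ⟨rfl, rfl, rfl⟩ := h
    rfl
  exact this.countable

/-! ### Real embedding -/

theorem toReal_inj : Function.Injective (Zsqrtd.toReal (by norm_num : (0:ℤ) ≤ 2)) := by
  refine Zsqrtd.toReal_injective _ ?_
  intro n hn
  have h1 : n.natAbs * n.natAbs = 2 := by
    have := congrArg Int.natAbs hn
    rw [Int.natAbs_mul] at this
    exact this.symm
  have h2 : n.natAbs < 2 := by nlinarith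
  interval_cases n.natAbs <;> omega

/-- the real number `1 + √2` -/
noncomputable def e : ℝ := 1 + Real.sqrt 2

theorem one_lt_e : 1 < e := by
  unfold e
  have : 0 < Real.sqrt 2 := by positivity
  linarith

theorem toReal_eps : Zsqrtd.toReal (by norm_num : (0:ℤ) ≤ 2) (eps : ℤ√2) = e := by
  simp [eps, e, Zsqrtd.toReal]

theorem toReal_zpow (k : ℤ) :
    Zsqrtd.toReal (by norm_num : (0:ℤ) ≤ 2) ((eps ^ k : (ℤ√2)ˣ) : ℤ√2) = e ^ k := by
  have h1 := Units.coe_map (Zsqrtd.toReal (by norm_num : (0:ℤ) ≤ 2) : ℤ√2 →* ℝ) (eps ^ k)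
  have h2 : Units.map (Zsqrtd.toReal (by norm_num : (0:ℤ) ≤ 2) : ℤ√2 →* ℝ) (eps ^ k) =
      (Units.map (Zsqrtd.toReal (by norm_num : (0:ℤ) ≤ 2) : ℤ√2 →* ℝ) eps) ^ k := map_zpow _ _ _
  rw [h2, Units.val_zpow_eq_zpow_val, Units.coe_map] at h1
  have h3 := toReal_eps
  simp only [MonoidHom.coe_coe] at h1
  rw [h3] at h1
  exact h1.symm

theorem e_zpow_inj : Function.Injective (fun k : ℤ => e ^ k) :=
  zpow_right_injective₀ (by have := one_lt_e; linarith) (one_lt_e.ne')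

/-- `(1 - ε ^ k) x = (1 - ε ^ k) y` implies `x = y` for `k ≠ 0`. -/
theorem cancel {k : ℤ} (hk : k ≠ 0) {x y : ℤ√2}
    (h : (1 - ((eps ^ k : (ℤ√2)ˣ) : ℤ√2)) * x = (1 - ((eps ^ k : (ℤ√2)ˣ) : ℤ√2)) * y) :
    x = y := by
  apply toReal_inj
  have h1 := congrArg (Zsqrtd.toReal (by norm_num : (0:ℤ) ≤ 2)) h
  rw [map_mul, map_mul, map_sub, map_one, toReal_zpow] at h1
  have h2 : 1 - e ^ k ≠ 0 := by
    intro h0
    apply hk
    apply e_zpow_inj
    simp only [zpow_zero]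
    linarith
  exact mul_left_cancel₀ h2 h1

/-- `ε ^ n w` determines `n` when `w ≠ 0`. -/
theorem cancel' {w : ℤ√2} (hw : w ≠ 0) {m n : ℤ}
    (h : ((eps ^ m : (ℤ√2)ˣ) : ℤ√2) * w = ((eps ^ n : (ℤ√2)ˣ) : ℤ√2) * w) : m = n := by
  have h1 := congrArg (Zsqrtd.toReal (by norm_num : (0:ℤ) ≤ 2)) h
  rw [map_mul, map_mul, toReal_zpow, toReal_zpow] at h1
  have h2 : Zsqrtd.toReal (by norm_num : (0:ℤ) ≤ 2) w ≠ 0 := by
    intro h0
    exact hw (toReal_inj (by rw [h0, map_zero]))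
  exact e_zpow_inj (mul_right_cancel₀ h2 h1)

/-! ### Torsion -/

theorem pow_of_n_zero {x : PG} (hx : x.n = 0) (k : ℕ) :
    (x ^ k).v = k * x.v ∧ (x ^ k).n = 0 := by
  induction k with
  | zero => simp
  | succ k ih =>
    rw [pow_succ]
    refine ⟨?_, ?_⟩
    · rw [mul_v, ih.1, ih.2, zpow_zero, Units.val_one, one_mul]
      push_cast
      ring
    · rw [mul_n, ih.2, hx, add_zero]

theorem n_pow (x : PG) (k : ℕ) : (x ^ k).n = k * x.n := by
  induction k with
  | zero => simp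
  | succ k ih => rw [pow_succ, mul_n, ih]; push_cast; ring

theorem tor (x : PG) (hx : x ≠ 1) (k : ℕ) (hk : 0 < k) : x ^ k ≠ 1 := by
  intro h
  by_cases hn : x.n = 0
  · have h1 := (pow_of_n_zero hn k).1
    rw [h, one_v] at h1
    have h2 : x.v = 0 := by
      apply toReal_inj
      have h3 := congrArg (Zsqrtd.toReal (by norm_num : (0:ℤ) ≤ 2)) h1
      rw [map_zero, map_mul, map_natCast] at h3
      rw [map_zero]
      have h4 : (k : ℝ) ≠ 0 := by positivity
      exact (mul_eq_zero.1 h3.symm).resolve_left h4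
    exact hx (PG.ext h2 hn)
  · have h1 := n_pow x k
    rw [h, one_n] at h1
    have h2 : (k : ℤ) ≠ 0 := by positivity
    exact hn ((mul_eq_zero.1 h1.symm).resolve_left h2)

/-! ### Solvability and finite generation -/

/-- the normal subgroup `ℤ[√2]` -/
def inc : Multiplicative (ℤ√2) →* PG where
  toFun v := ⟨Multiplicative.toAdd v, 0⟩
  map_one' := rfl
  map_mul' a b := by
    ext1
    · simp
    · simp

theorem ker_tau_le : tau.ker ≤ inc.range := by
  intro x hx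
  have h1 : x.n = 0 := by
    have := MonoidHom.mem_ker.1 hx
    simpa using this
  exact ⟨Multiplicative.ofAdd x.v, PG.ext rfl h1.symm⟩

theorem solv : Group.IsSolvable PG := Group.isSolvable_of_ker_le_range inc tau ker_tau_le

instance : Module.Finite ℤ (ℤ√2) := by
  let f : ℤ × ℤ →+ ℤ√2 :=
    { toFun := fun p => ⟨p.1, p.2⟩
      map_zero' := rfl
      map_add' := fun _ _ => rfl }
  exact Module.Finite.of_surjective f.toIntLinearMap (fun z => ⟨(z.re, z.im), rfl⟩)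

theorem fg_sub (K : Subgroup (Multiplicative (ℤ√2))) : K.FG := by
  have h1 : (AddSubgroup.toIntSubmodule (Subgroup.toAddSubgroup' K)).FG :=
    IsNoetherian.noetherian _
  rw [Submodule.fg_iff_addSubgroup_fg, AddSubgroup.toIntSubmodule_toAddSubgroup,
    AddSubgroup.fg_iff_mul_fg] at h1
  exact h1

theorem fg_map' {G G' : Type*} [Group G] [Group G'] {K : Subgroup G} (hK : K.FG) (f : G →* G') :
    (K.map f).FG := by
  classical
  obtain ⟨S, rfl⟩ := hK
  refine ⟨S.image f, ?_⟩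
  rw [MonoidHom.map_closure, Finset.coe_image]

theorem noeth (K : Subgroup PG) : K.FG := by
  obtain ⟨g, hg⟩ := (inferInstance : IsCyclic (K.map tau)).exists_generator
  obtain ⟨k₀, hk₀, hk₀g⟩ := g.2
  have h1 : ((K.comap inc).map inc).FG := fg_map' (fg_sub _) inc
  have h2 : (Subgroup.zpowers k₀).FG := ⟨{k₀}, by simp [Subgroup.zpowers_eq_closure]⟩
  have h3 : K = (K.comap inc).map inc ⊔ Subgroup.zpowers k₀ := by
    apply le_antisymm
    · intro x hx
      obtain ⟨z, hz⟩ := Subgroup.mem_zpowers_iff.1 (hg ⟨tau x, ⟨x, hx, rfl⟩⟩)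
      have hz' : tau (k₀ ^ z) = tau x := by
        have := congrArg Subtype.val hz
        simp only [Subgroup.coe_zpow] at this
        rw [map_zpow, hk₀g]
        exact this
      have h4 : x * (k₀ ^ z)⁻¹ ∈ (K.comap inc).map inc := by
        have h5 : x * (k₀ ^ z)⁻¹ ∈ tau.ker := by
          rw [MonoidHom.mem_ker, map_mul, map_inv, hz', mul_inv_cancel]
        obtain ⟨y, hy⟩ := ker_tau_le h5
        refine ⟨y, ?_, hy⟩
        change inc y ∈ K
        rw [hy]
        exact K.mul_mem hx (K.inv_mem (K.zpow_mem hk₀ z))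
      have h6 : x = x * (k₀ ^ z)⁻¹ * k₀ ^ z := by group
      rw [h6]
      exact Subgroup.mul_mem_sup h4 (Subgroup.zpow_mem _ (Subgroup.mem_zpowers k₀) z)
    · rw [sup_le_iff]
      refine ⟨Subgroup.map_comap_le inc K, ?_⟩
      rw [Subgroup.zpowers_le]
      exact hk₀
  rw [h3]
  exact h1.sup h2

/-! ### Generic elements -/

/-- powers of the unit -/
def E (k : ℤ) : ℤ√2 := ((eps ^ k : (ℤ√2)ˣ) : ℤ√2)

theorem E_zero : E 0 = 1 := by simp [E]

theorem E_add (m n : ℤ) : E (m + n) = E m * E n := by simp [E, zpow_add]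

theorem E_neg (m : ℤ) : E m * E (-m) = 1 := by rw [← E_add, add_neg_cancel, E_zero]

theorem conj_v (a u : PG) : (a * u * a⁻¹).v = a.v + E a.n * u.v - E u.n * a.v := by
  simp only [mul_v, mul_n, inv_v]
  change a.v + E a.n * u.v + E (a.n + u.n) * -(E (-a.n) * a.v) = _
  rw [E_add]
  linear_combination (-(E u.n * a.v)) * E_neg a.n

theorem conj_n (a u : PG) : (a * u * a⁻¹).n = u.n := by
  simp only [mul_n, inv_n]; ring

theorem conj_v' (a u : PG) :
    (a⁻¹ * u * a).v = E (-a.n) * (u.v - a.v + E u.n * a.v) := by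
  simp only [mul_v, mul_n, inv_v, inv_n]
  change -(E (-a.n) * a.v) + E (-a.n) * u.v + E (-a.n + u.n) * a.v = _
  rw [E_add]
  ring

theorem conj_n' (a u : PG) : (a⁻¹ * u * a).n = u.n := by
  simp only [mul_n, inv_n]; ring

theorem exists_gen (T : Set PG) (hT : T.Finite) (N : ℤ) :
    ∃ a : PG, N < a.n ∧ ∀ u ∈ T, u ≠ 1 → ∀ v ∈ T, a * u * a⁻¹ * v ≠ 1 ∧ a⁻¹ * u * a * v ≠ 1 := by
  -- choice of `n`
  have hfin1 : (⋃ u ∈ T, ⋃ v ∈ T, {n : ℤ | u.v ≠ 0 ∧ (E n * u.v = (v⁻¹).v ∨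
      E (-n) * u.v = (v⁻¹).v)}).Finite := by
    refine hT.biUnion fun u _ => hT.biUnion fun v _ => ?_
    have h1 : ({n : ℤ | u.v ≠ 0 ∧ E n * u.v = (v⁻¹).v}).Subsingleton := by
      rintro m ⟨hu, hm⟩ n ⟨-, hn⟩
      exact cancel' hu (hm.trans hn.symm)
    have h2 : ({n : ℤ | u.v ≠ 0 ∧ E (-n) * u.v = (v⁻¹).v}).Subsingleton := by
      rintro m ⟨hu, hm⟩ n ⟨-, hn⟩
      have := cancel' hu (hm.trans hn.symm)
      linarith
    refine (h1.finite.union h2.finite).subset ?_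
    rintro n ⟨hu, h | h⟩
    · exact Or.inl ⟨hu, h⟩
    · exact Or.inr ⟨hu, h⟩
  obtain ⟨n, hnN, hn⟩ := (Set.Ioi_infinite N).exists_notMem_finite hfin1
  -- choice of `x`
  have hfin2 : (⋃ u ∈ T, ⋃ v ∈ T, {x : ℤ√2 | u.n ≠ 0 ∧
      (x + E n * u.v - E u.n * x = (v⁻¹).v ∨
        E (-n) * (u.v - x + E u.n * x) = (v⁻¹).v)}).Finite := by
    refine hT.biUnion fun u _ => hT.biUnion fun v _ => ?_
    have h1 : ({x : ℤ√2 | u.n ≠ 0 ∧ x + E n * u.v - E u.n * x = (v⁻¹).v}).Subsingleton := by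
      rintro x ⟨hu, hx⟩ y ⟨-, hy⟩
      refine cancel hu ?_
      change (1 - E u.n) * x = (1 - E u.n) * y
      linear_combination hx - hy
    have h2 : ({x : ℤ√2 | u.n ≠ 0 ∧
        E (-n) * (u.v - x + E u.n * x) = (v⁻¹).v}).Subsingleton := by
      rintro x ⟨hu, hx⟩ y ⟨-, hy⟩
      refine cancel hu ?_
      change (1 - E u.n) * x = (1 - E u.n) * y
      have h3 : E (-n) * (u.v - x + E u.n * x) = E (-n) * (u.v - y + E u.n * y) := hx.trans hy.symm
      have h4 := E_neg n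
      have h5 : E n * (E (-n) * (u.v - x + E u.n * x)) =
          E n * (E (-n) * (u.v - y + E u.n * y)) := by rw [h3]
      rw [← mul_assoc, ← mul_assoc, h4, one_mul, one_mul] at h5
      linear_combination -h5
    refine (h1.finite.union h2.finite).subset ?_
    rintro x ⟨hu, h | h⟩
    · exact Or.inl ⟨hu, h⟩
    · exact Or.inr ⟨hu, h⟩
  have hinf : (Set.univ : Set (ℤ√2)).Infinite := by
    have : Function.Injective (fun k : ℤ => (⟨k, 0⟩ : ℤ√2)) := by
      intro a b hab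
      exact congrArg Zsqrtd.re hab
    have := Infinite.of_injective _ this
    exact Set.infinite_univ
  obtain ⟨x, -, hx⟩ := hinf.exists_notMem_finite hfin2
  refine ⟨⟨x, n⟩, hnN, fun u hu hu1 v hv => ⟨fun h => ?_, fun h => ?_⟩⟩
  · have h1 := congrArg PG.v (eq_inv_of_mul_eq_one_left h)
    rw [conj_v] at h1
    simp only at h1
    by_cases hun : u.n = 0
    · have huv : u.v ≠ 0 := fun h0 => hu1 (PG.ext h0 hun)
      apply hn
      simp only [Set.mem_iUnion]
      refine ⟨u, hu, v, hv, huv, Or.inl ?_⟩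
      rw [hun, E_zero] at h1
      linear_combination h1
    · apply hx
      simp only [Set.mem_iUnion]
      exact ⟨u, hu, v, hv, hun, Or.inl h1⟩
  · have h1 := congrArg PG.v (eq_inv_of_mul_eq_one_left h)
    rw [conj_v'] at h1
    simp only at h1
    by_cases hun : u.n = 0
    · have huv : u.v ≠ 0 := fun h0 => hu1 (PG.ext h0 hun)
      apply hn
      simp only [Set.mem_iUnion]
      refine ⟨u, hu, v, hv, huv, Or.inr ?_⟩
      rw [hun, E_zero] at h1
      linear_combination h1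
    · apply hx
      simp only [Set.mem_iUnion]
      exact ⟨u, hu, v, hv, hun, Or.inr h1⟩

theorem gen (S : Set PG) (hS : S.Finite) (c : PG) :
    ∃ a : PG, Gen tau S a ∧ Gen tau S (a⁻¹ * c) := by
  set T : Set PG := S ∪ (fun u => c * u * c⁻¹) '' S with hT
  have hTfin : T.Finite := hS.union (hS.image _)
  obtain ⟨M, hM⟩ : ∃ M : ℕ, ∀ u ∈ S, u.n.natAbs ≤ M := by
    obtain ⟨M, hM⟩ := (hS.image fun u : PG => u.n.natAbs).bddAbove
    exact ⟨M, fun u hu => hM ⟨u, hu, rfl⟩⟩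
  obtain ⟨a, ha, hgen⟩ := exists_gen T hTfin (3 * M + c.n.natAbs)
  refine ⟨a, ⟨fun u hu => ?_, fun u hu hu1 v hv => ?_⟩, ⟨fun u hu => ?_, fun u hu hu1 v hv => ?_⟩⟩
  · rw [deg_eq, deg_eq]
    have := hM u hu
    omega
  · exact hgen u (Or.inl hu) hu1 v (Or.inl hv)
  · rw [deg_eq, deg_eq, mul_n, inv_n]
    have := hM u hu
    omega
  · have hcu : c * u * c⁻¹ ∈ T := Or.inr ⟨u, hu, rfl⟩
    have hcv : c * v * c⁻¹ ∈ T := Or.inr ⟨v, hv, rfl⟩
    have hcu1 : c * u * c⁻¹ ≠ 1 := by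
      intro h
      apply hu1
      have := congrArg (fun z => c⁻¹ * z * c) h
      simpa [mul_assoc] using this
    constructor
    · have h1 := (hgen _ hcu hcu1 v (Or.inl hv)).2
      intro h
      apply h1
      rw [← h]
      group
    · have h1 := (hgen u (Or.inl hu) hu1 _ hcv).1
      intro h
      apply h1
      have h2 : a * u * a⁻¹ * (c * v * c⁻¹) = c * ((a⁻¹ * c)⁻¹ * u * (a⁻¹ * c) * v) * c⁻¹ := by
        group
      rw [h2, h]
      group

end PG

theorem d1 : T_D1 := by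
  refine ⟨PG, inferInstance, PG.tau, PG.t, ?_⟩
  exact
    { cnt := inferInstance
      tor := PG.tor
      deg_t := rfl
      gen := PG.gen
      solv := PG.solv
      noeth := PG.noeth }

end Pool.Agent.H87.TF
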