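import Pool.Agent.H7.TF.Targets

/-! Module D3 of MP_7a929c_al. -/

set_option autoImplicit false

namespace Pool.Agent.H87.TF

open Pool.Agent.H7.TF

theorem toAdd_tau {P : Type} [Group P] (τ : P →* Multiplicative ℤ) (t : P)
    (ht : τ t = Multiplicative.ofAdd 1) (n : ℕ) (z : ℤ) :
    Multiplicative.toAdd (τ ((t ^ n) ^ z)) = n * z := by
  rw [map_zpow, map_pow, ht, toAdd_zpow, toAdd_pow, toAdd_ofAdd]
  simp [mul_comm]

theorem d3 : T_D3 := by
  intro P _ τ t ht v hv
  classical
  set w := Monoid.CoprodI.Word.equiv v with hw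
  have hprod : w.prod = v := Monoid.CoprodI.Word.equiv.left_inv v
  have hne : w.toList ≠ [] := by
    intro h0
    apply hv
    rw [← hprod, Monoid.CoprodI.Word.prod, h0]
    rfl
  refine ⟨w.toList.length, fun n hn => ?_⟩
  set F : (Σ _ : Fin 2, Multiplicative ℤ) → Fin 3 × P :=
    fun l => (Fin.castSucc l.1, (t ^ n) ^ (Multiplicative.toAdd l.2)) with hF
  have hz : ∀ l ∈ w.toList, Multiplicative.toAdd l.2 ≠ 0 := by
    intro l hl h0
    apply w.ne_one l hl
    rw [← ofAdd_toAdd l.2, h0]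
    rfl
  have hdeg : ∀ l ∈ w.toList, n ≤ deg τ ((t ^ n) ^ (Multiplicative.toAdd l.2)) := by
    intro l hl
    unfold deg
    rw [toAdd_tau τ t ht, Int.natAbs_mul, Int.natAbs_natCast]
    have h1 : 0 < (Multiplicative.toAdd l.2).natAbs := Int.natAbs_pos.2 (hz l hl)
    exact Nat.le_mul_of_pos_right _ h1
  refine ⟨w.toList.map F, ⟨?_, ?_⟩, ?_, ?_, ?_, ?_⟩
  · intro x hx
    obtain ⟨l, hl, rfl⟩ := List.mem_map.1 hx
    intro h1
    have h2 := hdeg l hl
    change (t ^ n) ^ (Multiplicative.toAdd l.2) = 1 at h1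
    rw [h1] at h2
    simp [deg] at h2
    omega
  · rw [List.isChain_map]
    refine w.chain_ne.imp ?_
    intro a b hab h
    exact hab (Fin.castSucc_injective 2 h)
  · simpa using hne
  · simp
  · intro x hx
    obtain ⟨l, hl, rfl⟩ := List.mem_map.1 hx
    exact hdeg l hl
  · have h1 : jmap t n v = (w.toList.map fun l => jmap t n (Monoid.CoprodI.of (i := l.1) l.2)).prod := by
      conv_lhs => rw [← hprod]
      rw [Monoid.CoprodI.Word.prod, map_list_prod, List.map_map]
      rfl
    rw [h1, ev, List.map_map]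
    congr 1

end Pool.Agent.H87.TF
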