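import Pool.Agent.H7.TF.Targets

/-! Module D4 of MP_7a929c_al. -/

set_option autoImplicit false

namespace Pool.Agent.H87.TF

open Pool.Agent.H7.TF

theorem fg_map {G G' : Type*} [Group G] [Group G'] {K : Subgroup G} (hK : K.FG) (f : G →* G') :
    (K.map f).FG := by
  classical
  obtain ⟨S, rfl⟩ := hK
  refine ⟨S.image f, ?_⟩
  rw [MonoidHom.map_closure, Finset.coe_image]

/-- The free product of two infinite cyclic groups is not solvable. -/
theorem not_solvable_coprod :
    ¬ Group.IsSolvable (Monoid.CoprodI (fun _ : Fin 2 => Multiplicative ℤ)) := by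
  intro hs
  set σ : Equiv.Perm (Fin 5) := finRotate 5 with hσ
  set f : Monoid.CoprodI (fun _ : Fin 2 => Multiplicative ℤ) →* Equiv.Perm (Fin 5) :=
    Monoid.CoprodI.lift fun i => zpowersHom _ (![σ, Equiv.swap 0 (σ 0)] i) with hf
  have h1 : σ.IsCycle := isCycle_finRotate
  have h2 : σ.support = Finset.univ := support_finRotate
  have h3 := Equiv.Perm.closure_cycle_adjacent_swap h1 h2 0
  have h4 : f.range = ⊤ := by
    rw [← top_le_iff, ← h3, Subgroup.closure_le]
    rintro x (rfl | hx)
    · refine ⟨Monoid.CoprodI.of (i := 0) (Multiplicative.ofAdd 1), ?_⟩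
      simp [hf]
    · rw [Set.mem_singleton_iff] at hx
      refine ⟨Monoid.CoprodI.of (i := 1) (Multiplicative.ofAdd 1), ?_⟩
      simp [hf, hx]
  have h5 : Function.Surjective f := MonoidHom.range_eq_top.1 h4
  exact Equiv.Perm.not_isSolvable_fin_5 (Group.isSolvable_of_surjective h5)

theorem d4 : T_D4 := by
  rintro ⟨P, _, τ, t, hP⟩ hD2
  obtain ⟨N, hN, h1, h2⟩ := hD2 P τ t hP
  refine ⟨FP P ⧸ N, inferInstance, fun i => ((QuotientGroup.mk' N).comp (emb i)).range,
    ?_, ?_, ?_⟩
  · intro i j hij x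
    obtain ⟨w, rfl⟩ := QuotientGroup.mk'_surjective N x
    obtain ⟨p, q, hpq⟩ := h1 i j w hij
    refine ⟨QuotientGroup.mk' N (emb i p), ⟨p, rfl⟩, QuotientGroup.mk' N (emb j q), ⟨q, rfl⟩, ?_⟩
    rw [← map_mul]
    exact (QuotientGroup.eq.2 hpq).symm
  · intro i
    set f := (QuotientGroup.mk' N).comp (emb (P := P) i) with hf
    have hsurj : Function.Surjective f.rangeRestrict := f.rangeRestrict_surjective
    refine ⟨?_, fun K => ?_⟩
    · have : Group.IsSolvable P := hP.solv
      exact Group.isSolvable_of_surjective hsurj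
    · have hK := fg_map (hP.noeth (K.comap f.rangeRestrict)) f.rangeRestrict
      rwa [Subgroup.map_comap_eq_self_of_surjective hsurj] at hK
  · intro H hH hsol
    obtain ⟨d, hd⟩ := hsol.solvable
    set k := (H.index).factorial with hk
    have hk0 : 0 < k := Nat.factorial_pos _
    have hpow : ∀ x : FP P ⧸ N, ∀ n : ℕ, k ∣ n → x ^ n ∈ H := by
      intro x n hn
      obtain ⟨r, hr0, hr1, hr2⟩ := Subgroup.exists_pow_mem_of_index_ne_zero hH x
      have hrk : r ∣ n := (Nat.dvd_factorial hr0 hr1).trans hn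
      obtain ⟨s, rfl⟩ := hrk
      rw [pow_mul]
      exact H.pow_mem hr2 s
    have hmem : ∀ n : ℕ, k ∣ n → ∀ v, QuotientGroup.mk' N (jmap t n v) ∈ H := by
      intro n hn v
      induction v using Monoid.CoprodI.induction_on with
      | one => rw [map_one, map_one]; exact H.one_mem
      | of i m =>
        have h3 : jmap t n (Monoid.CoprodI.of (i := i) m) =
            (emb (Fin.castSucc i) t ^ n) ^ (Multiplicative.toAdd m) := by
          simp only [jmap, Monoid.CoprodI.lift_of, MonoidHom.comp_apply]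
          rw [zpowersHom_apply, map_zpow, map_pow]
        rw [h3, map_zpow, map_pow]
        exact H.zpow_mem (hpow _ n hn) _
      | mul x y hx hy => rw [map_mul, map_mul]; exact H.mul_mem hx hy
    -- a nontrivial element of the derived series
    have hv : ∃ v ∈ derivedSeries (Monoid.CoprodI (fun _ : Fin 2 => Multiplicative ℤ)) d,
        v ≠ 1 := by
      by_contra hcon
      push Not at hcon
      exact not_solvable_coprod ⟨⟨d, (Subgroup.eq_bot_iff_forall _).2 hcon⟩⟩
    obtain ⟨v, hvd, hv1⟩ := hv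
    obtain ⟨n, hn1, hn2, hn3⟩ := h2 v hv1 k hk0
    set g : Monoid.CoprodI (fun _ : Fin 2 => Multiplicative ℤ) →* H :=
      ((QuotientGroup.mk' N).comp (jmap t n)).codRestrict H (hmem n hn1) with hg
    have h3 : g v ∈ (derivedSeries H d) :=
      map_derivedSeries_le_derivedSeries g d ⟨v, hvd, rfl⟩
    rw [hd, Subgroup.mem_bot] at h3
    have h4 : QuotientGroup.mk' N (jmap t n v) = 1 := congrArg Subtype.val h3
    exact hn3 ((QuotientGroup.eq_one_iff _).1 h4)

end Pool.Agent.H87.TF
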